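import Mathlib

/-!
Upper bound for the random matrix factor `f_k = ∏_{j<k} j!/(j+k)!`.
-/

namespace Pool.Agent.KSFactor

open Finset

/-- the random matrix factor `f_k` -/
noncomputable def fk (k : ℕ) : ℝ := ∏ j ∈ range k, ((j.factorial : ℝ) / ((j + k).factorial : ℝ))

lemma log_fact_lower (n : ℕ) : (n : ℝ) * Real.log n - n ≤ Real.log n.factorial := by
  rcases Nat.eq_zero_or_pos n with h | h
  · subst h; simp
  have hn : (0 : ℝ) < n := by exact_mod_cast h
  have h1 := Real.pow_div_factorial_le_exp (n : ℝ) hn.le n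
  have hf : (0 : ℝ) < n.factorial := by exact_mod_cast n.factorial_pos
  have h2 := Real.log_le_log (by positivity) h1
  rw [Real.log_div (by positivity) hf.ne', Real.log_pow, Real.log_exp] at h2
  linarith

lemma log_fact_upper : ∀ n : ℕ, 1 ≤ n →
    Real.log n.factorial ≤ (n : ℝ) * Real.log n - n + Real.log n + 1 := by
  intro n hn
  induction n, hn using Nat.le_induction with
  | base => simp
  | succ n hn ih =>
    have hn0 : (0 : ℝ) < n := by exact_mod_cast hn
    have hf : (0 : ℝ) < n.factorial := by exact_mod_cast n.factorial_pos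
    rw [Nat.factorial_succ]
    push_cast
    rw [Real.log_mul (by positivity) hf.ne']
    have h1 := Real.one_sub_inv_le_log_of_pos (show 0 < ((n : ℝ) + 1) / n by positivity)
    rw [Real.log_div (by positivity) hn0.ne', inv_div] at h1
    have h2 : ((n : ℝ) + 1) * (1 - n / (n + 1)) = 1 := by field_simp; ring
    have h3 : ((n : ℝ) + 1) * (1 - n / (n + 1)) ≤ (n + 1) * (Real.log (n + 1) - Real.log n) := by
      gcongr
    rw [h2] at h3
    nlinarith

lemma fk_pos (k : ℕ) : 0 < fk k :=
  prod_pos fun j _ => div_pos (by exact_mod_cast j.factorial_pos)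
    (by exact_mod_cast (j + k).factorial_pos)

lemma fk_succ (k : ℕ) : fk (k + 1) = fk k *
    ((k.factorial : ℝ) ^ 2 / (((2 * k).factorial : ℝ) * ((2 * k + 1).factorial : ℝ))) := by
  have hf : ∀ n : ℕ, (n.factorial : ℝ) ≠ 0 := fun n => by exact_mod_cast n.factorial_ne_zero
  have e1 : ∀ m : ℕ, fk m = (∏ j ∈ range m, (j.factorial : ℝ)) /
      ∏ j ∈ range m, ((j + m).factorial : ℝ) := fun m => by rw [fk, prod_div_distrib]
  have e2 : ∏ j ∈ range (k + 1), ((j + (k + 1)).factorial : ℝ) =
      (∏ j ∈ range k, ((j + k).factorial : ℝ)) * ((2 * k).factorial * (2 * k + 1).factorial) /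
        k.factorial := by
    rw [eq_div_iff (hf k)]
    have h1 := prod_range_succ' (fun j => ((j + k).factorial : ℝ)) (k + 1)
    have h2 := prod_range_succ (fun j => ((j + k).factorial : ℝ)) (k + 1)
    have h3 := prod_range_succ (fun j => ((j + k).factorial : ℝ)) k
    have h4 : ∏ j ∈ range (k + 1), ((j + 1 + k).factorial : ℝ) =
        ∏ j ∈ range (k + 1), ((j + (k + 1)).factorial : ℝ) :=
      prod_congr rfl fun j _ => by rw [show j + 1 + k = j + (k + 1) by ring]
    rw [zero_add, h4] at h1
    rw [← h1, h2, h3, show k + k = 2 * k by ring, show k + 1 + k = 2 * k + 1 by ring]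
    ring
  rw [e1, e1, e2, prod_range_succ]
  have hP : ∏ j ∈ range k, ((j + k).factorial : ℝ) ≠ 0 := prod_ne_zero_iff.mpr fun j _ => hf _
  have h5 := hf k
  have h6 := hf (2 * k)
  have h7 := hf (2 * k + 1)
  field_simp

lemma log_step {k : ℕ} (hk : 1 ≤ k) :
    Real.log ((k.factorial : ℝ) ^ 2 / (((2 * k).factorial : ℝ) * ((2 * k + 1).factorial : ℝ))) ≤
      -(2 * k * Real.log k) - 4 * k * Real.log 2 + 2 * k + 2 * Real.log k + 2 := by
  have hf : ∀ n : ℕ, (n.factorial : ℝ) ≠ 0 := fun n => by exact_mod_cast n.factorial_ne_zero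
  have hk0 : (0 : ℝ) < k := by exact_mod_cast hk
  rw [Real.log_div (pow_ne_zero _ (hf _)) (mul_ne_zero (hf _) (hf _)), Real.log_pow,
    Real.log_mul (hf _) (hf _), Nat.factorial_succ (2 * k)]
  push_cast
  rw [Real.log_mul (by positivity) (hf _)]
  have h1 := log_fact_upper k hk
  have h2 := log_fact_lower (2 * k)
  push_cast at h2
  rw [Real.log_mul two_ne_zero hk0.ne'] at h2
  have h3 : 0 ≤ Real.log (2 * (k : ℝ) + 1) := Real.log_nonneg (by linarith)
  nlinarith

theorem log_fk_le : ∀ k : ℕ, 1 ≤ k → Real.log (fk k) ≤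
    -((k : ℝ) ^ 2 * Real.log k) - (2 * Real.log 2 - 3 / 2) * (k : ℝ) ^ 2 +
      k * (3 * Real.log k + 6) := by
  intro k hk
  induction k, hk using Nat.le_induction with
  | base =>
    have h2 := Real.log_two_lt_d9
    simp [fk]
    linarith
  | succ k hk ih =>
    have hk0 : (0 : ℝ) < k := by exact_mod_cast hk
    have hk1 : (1 : ℝ) ≤ k := by exact_mod_cast hk
    have hf : ∀ n : ℕ, (0 : ℝ) < n.factorial := fun n => by exact_mod_cast n.factorial_pos
    rw [fk_succ, Real.log_mul (fk_pos k).ne' (by have := hf k; have := hf (2 * k); have := hf (2 * k + 1); positivity)]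
    have h1 := log_step hk
    push_cast
    obtain ⟨x, hx⟩ : ∃ x : ℝ, x = (k : ℝ) := ⟨_, rfl⟩
    rw [← hx] at hk0 hk1 ih h1 ⊢
    have h4 : Real.log (x + 1) - Real.log x ≤ 1 / x := by
      have := Real.log_le_sub_one_of_pos (show 0 < (x + 1) / x by positivity)
      rw [Real.log_div (by positivity) hk0.ne'] at this
      refine this.trans (le_of_eq ?_)
      field_simp
      ring
    have h5 : 0 ≤ Real.log (x + 1) - Real.log x := by
      have := Real.log_le_log hk0 (show x ≤ x + 1 by linarith)
      linarith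
    have h6 : x * (Real.log (x + 1) - Real.log x) ≤ 1 := by
      calc x * (Real.log (x + 1) - Real.log x) ≤ x * (1 / x) := by gcongr
        _ = 1 := by field_simp
    have h7 : x ^ 2 * (Real.log (x + 1) - Real.log x) ≤ x := by
      calc x ^ 2 * (Real.log (x + 1) - Real.log x) = x * (x * (Real.log (x + 1) - Real.log x)) := by ring
        _ ≤ x * 1 := by gcongr
        _ = x := mul_one x
    have h8 : 0 ≤ Real.log x := Real.log_nonneg hk1
    have h9 : 0 ≤ Real.log (x + 1) := by linarith
    have h10 := Real.log_two_lt_d9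
    have h11 := Real.log_two_gt_d9
    obtain ⟨D, hD⟩ : ∃ D : ℝ, D = Real.log (x + 1) - Real.log x := ⟨_, rfl⟩
    rw [← hD] at h5 h6 h7
    have h12 : Real.log (x + 1) = Real.log x + D := by rw [hD]; ring
    rw [h12]
    have h13 : 0 ≤ x * D := mul_nonneg hk0.le h5
    nlinarith

end Pool.Agent.KSFactor
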